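import Pool.Agent.helper82.OG.Spec

/-!
# HIT: many good columns
-/

set_option autoImplicit false

open Finset

namespace Pool.Agent.OG

open Pool.Agent.EP

theorem HIT_fst (hCOL : COL_stmt) {c V W N D : ℕ} (hc : 0 < c) (hcN : c ≤ N) (hD : DvB D N)
    (hVW : V ≤ W) : #{u ∈ Ioc 0 V | ∃ v ∈ Ioc 0 W, c + 3 * u ^ 2 = 3 * v ^ 2} ≤ D := by
  refine le_trans ?_ ((hCOL c W hc).trans (hD c hc hcN))
  refine le_trans (card_le_card (t := ({x ∈ Ioc 0 W ×ˢ Ioc 0 W |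
    c + 3 * x.1 ^ 2 = 3 * x.2 ^ 2}).image Prod.fst) ?_) card_image_le
  intro u hu
  rw [mem_filter, mem_Ioc] at hu
  obtain ⟨hu, v, hv, h⟩ := hu
  rw [mem_Ioc] at hv
  rw [mem_image]
  refine ⟨(u, v), ?_, rfl⟩
  rw [mem_filter, mem_product, mem_Ioc, mem_Ioc]
  exact ⟨⟨⟨hu.1, hu.2.trans hVW⟩, hv⟩, h⟩

theorem HIT_snd (hCOL : COL_stmt) {c V W N D : ℕ} (hc : 0 < c) (hcN : c ≤ N) (hD : DvB D N)
    (hVW : V ≤ W) : #{u ∈ Ioc 0 V | ∃ v ∈ Ioc 0 W, c + 3 * v ^ 2 = 3 * u ^ 2} ≤ D := by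
  refine le_trans ?_ ((hCOL c W hc).trans (hD c hc hcN))
  refine le_trans (card_le_card (t := ({x ∈ Ioc 0 W ×ˢ Ioc 0 W |
    c + 3 * x.1 ^ 2 = 3 * x.2 ^ 2}).image Prod.snd) ?_) card_image_le
  intro u hu
  rw [mem_filter, mem_Ioc] at hu
  obtain ⟨hu, v, hv, h⟩ := hu
  rw [mem_Ioc] at hv
  rw [mem_image]
  refine ⟨(v, u), ?_, rfl⟩
  rw [mem_filter, mem_product, mem_Ioc, mem_Ioc]
  exact ⟨⟨hv, ⟨hu.1, hu.2.trans hVW⟩⟩, h⟩

theorem HIT_odd (V : ℕ) : V / 2 ≤ #{u ∈ Ioc 0 V | u % 2 = 1} := by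
  refine le_trans (le_of_eq (card_range (V / 2)).symm) ?_
  refine card_le_card_of_injOn (fun i => 2 * i + 1) ?_ ?_
  · intro i hi
    simp only [coe_range, Set.mem_Iio] at hi
    rw [mem_coe, mem_filter, mem_Ioc]
    refine ⟨⟨?_, ?_⟩, ?_⟩
    · exact Nat.succ_pos _
    · change 2 * i + 1 ≤ V
      omega
    · change (2 * i + 1) % 2 = 1
      omega
  · intro i _ j _ h
    simp only at h
    omega

theorem HIT (hCOL : COL_stmt) : HIT_stmt := by
  classical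
  intro a r Y V D hr hV hD
  set N := 2 ^ a * (4 * Y + r) with hN
  have h2 : 0 < 2 ^ a := by positivity
  have hVV : V ≤ V ^ 2 := Nat.le_self_pow two_ne_zero V
  have hVW : V ≤ N := by
    rw [hN]
    nlinarith
  set U : Finset ℕ := {u ∈ Ioc 0 V | u % 2 = 1} with hU
  set f : ℕ × ℕ → ℕ := fun x => 2 ^ a * x.1 + 3 * x.2 ^ 2 with hf
  set B1 : Finset (ℕ × ℕ) := {x ∈ TT r Y ×ˢ U | ∃ y ∈ Rp a r (f x), y ≠ x} with hB1
  set B2 : Finset (ℕ × ℕ) := {x ∈ TT r Y ×ˢ U | Ih a r (f x)} with hB2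
  set G : Finset (ℕ × ℕ) := {x ∈ TT r Y ×ˢ U | (∀ y ∈ Rp a r (f x), y = x) ∧ ¬ Ih a r (f x)}
    with hG
  have hQ : #(TT r Y ×ˢ U) ≤ #G + #B1 + #B2 := by
    refine le_trans (card_le_card (t := (G ∪ B1) ∪ B2) ?_)
      ((card_union_le _ _).trans (Nat.add_le_add_right (card_union_le _ _) _))
    intro x hx
    rw [mem_union, mem_union, hG, hB1, hB2, mem_filter, mem_filter, mem_filter]
    by_cases h1 : ∃ y ∈ Rp a r (f x), y ≠ x
    · exact Or.inl (Or.inr ⟨hx, h1⟩)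
    · by_cases h3 : Ih a r (f x)
      · exact Or.inr ⟨hx, h3⟩
      · push Not at h1
        exact Or.inl (Or.inl ⟨hx, h1, h3⟩)
  have hQ1 : #(TT r Y) * (V / 2) ≤ #(TT r Y ×ˢ U) := by
    rw [card_product]
    exact Nat.mul_le_mul_left _ (HIT_odd V)
  have hmemU : ∀ u ∈ U, 0 < u ∧ u ≤ V ∧ u % 2 = 1 := by
    intro u hu
    rw [hU, mem_filter, mem_Ioc] at hu
    exact ⟨hu.1.1, hu.1.2, hu.2⟩
  have hmemT : ∀ Z : ℕ, ∀ m, m ∈ TT r Z ↔ (0 < m ∧ m ≤ Z) ∧ JG ac r (m : ℤ) ≠ 0 := by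
    intro Z m
    rw [TT, mem_filter, mem_Ioc]
  have hself : ∀ x ∈ TT r Y ×ˢ U, x ∈ Rp a r (f x) ∧ f x ≤ 4 * 2 ^ a * Y ∧ 0 < f x := by
    intro x hx
    rw [mem_product, hmemT] at hx
    obtain ⟨⟨⟨hx1, hx2⟩, hx3⟩, hx4⟩ := hx
    obtain ⟨hx5, hx6, hx7⟩ := hmemU _ hx4
    have h1 : x.1 ≤ 2 ^ a * x.1 := Nat.le_mul_of_pos_left _ h2
    have h3 : x.2 ≤ x.2 ^ 2 := by nlinarith
    have h4 : x.2 ^ 2 ≤ V ^ 2 := Nat.pow_le_pow_left hx6 2
    have h5 : 2 ^ a * x.1 ≤ 2 ^ a * Y := Nat.mul_le_mul_left _ hx2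
    refine ⟨?_, ?_, ?_⟩
    · rw [Rp, mem_filter, mem_product, mem_Ioc, mem_Ioc]
      refine ⟨⟨⟨hx1, ?_⟩, hx5, ?_⟩, hx7, rfl, hx3⟩
      · simp only [hf]
        omega
      · simp only [hf]
        omega
    · simp only [hf]
      nlinarith
    · simp only [hf]
      omega
  have hGc : #G ≤ #(Gd a r (4 * 2 ^ a * Y)) := by
    refine card_le_card_of_injOn f ?_ ?_
    · intro x hx
      rw [mem_coe, hG, mem_filter] at hx
      obtain ⟨hx, hx1, hx2⟩ := hx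
      obtain ⟨h3, h4, h5⟩ := hself x hx
      rw [mem_coe, Gd, mem_filter, mem_Ioc]
      refine ⟨⟨h5, h4⟩, ?_, hx2⟩
      rw [card_eq_one]
      exact ⟨x, eq_singleton_iff_unique_mem.2 ⟨h3, hx1⟩⟩
    · intro x hx y hy hxy
      rw [mem_coe, hG, mem_filter] at hx hy
      obtain ⟨h3, -, -⟩ := hself y hy.1
      rw [← hxy] at h3
      exact (hx.2.1 y h3).symm
  have hB2c : #B2 ≤ #(TT r Y) * D := by
    refine le_trans (card_le_card (t := (TT r Y).biUnion fun m =>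
      ({u ∈ Ioc 0 V | ∃ v ∈ Ioc 0 N, 2 ^ a * (m + r) + 3 * u ^ 2 = 3 * v ^ 2}).image
        (fun u => (m, u))) ?_) (card_biUnion_le_card_mul _ _ _ ?_)
    · intro x hx
      rw [hB2, mem_filter] at hx
      obtain ⟨hx, v, hv, hv2⟩ := hx
      rw [mem_product] at hx
      obtain ⟨hx1, hx2⟩ := hx
      obtain ⟨hx5, hx6, hx7⟩ := hmemU _ hx2
      have hx8 := (hmemT _ _).1 hx1
      rw [mem_biUnion]
      refine ⟨x.1, hx1, ?_⟩
      rw [mem_image]
      refine ⟨x.2, ?_, rfl⟩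
      rw [mem_filter, mem_Ioc]
      refine ⟨⟨hx5, hx6⟩, v, ?_, ?_⟩
      · rw [mem_Ioc]
        refine ⟨by omega, ?_⟩
        have h3 : v ≤ v ^ 2 := by nlinarith [show 0 < v by omega]
        have h4 : x.2 ^ 2 ≤ V ^ 2 := Nat.pow_le_pow_left hx6 2
        have h5 : 2 ^ a * x.1 ≤ 2 ^ a * Y := Nat.mul_le_mul_left _ hx8.1.2
        simp only [hf] at hv2
        rw [hN]
        nlinarith
      · simp only [hf] at hv2
        rw [hv2]
        ring
    · intro m hm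
      have hm1 := (hmemT _ _).1 hm
      refine card_image_le.trans (HIT_fst hCOL (N := N) ?_ ?_ hD hVW)
      · have : 0 < m + r := by omega
        positivity
      · rw [hN]
        refine Nat.mul_le_mul_left _ ?_
        omega
  have hB1c : #B1 ≤ #(TT r Y) * (#(TT r (4 * Y)) * D) := by
    refine le_trans (card_le_card (t := (TT r Y).biUnion fun m => (TT r (4 * Y)).biUnion fun m' =>
      ({u ∈ Ioc 0 V | m ≠ m' ∧ ∃ v ∈ Ioc 0 N, 2 ^ a * m + 3 * u ^ 2 = 2 ^ a * m' + 3 * v ^ 2}).image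
        (fun u => (m, u))) ?_) (card_biUnion_le_card_mul _ _ _ fun m hm =>
          card_biUnion_le_card_mul _ _ _ ?_)
    · intro x hx
      rw [hB1, mem_filter] at hx
      obtain ⟨hx, y, hy, hyx⟩ := hx
      obtain ⟨-, hb, -⟩ := hself x hx
      rw [mem_product] at hx
      obtain ⟨hx1, hx2⟩ := hx
      obtain ⟨hx5, hx6, hx7⟩ := hmemU _ hx2
      rw [Rp, mem_filter, mem_product, mem_Ioc, mem_Ioc] at hy
      obtain ⟨⟨⟨hy1, hy2⟩, hy3, hy4⟩, hy5, hy6, hy7⟩ := hy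
      have hy8 : y.1 ≤ 4 * Y := by
        have h3 : 2 ^ a * y.1 ≤ 2 ^ a * (4 * Y) := by
          calc 2 ^ a * y.1 ≤ f x := by omega
            _ ≤ 4 * 2 ^ a * Y := hb
            _ = 2 ^ a * (4 * Y) := by ring
        exact Nat.le_of_mul_le_mul_left h3 h2
      rw [mem_biUnion]
      refine ⟨x.1, hx1, ?_⟩
      rw [mem_biUnion]
      refine ⟨y.1, (hmemT _ _).2 ⟨⟨hy1, hy8⟩, hy7⟩, ?_⟩
      rw [mem_image]
      refine ⟨x.2, ?_, rfl⟩
      rw [mem_filter, mem_Ioc]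
      refine ⟨⟨hx5, hx6⟩, ?_, y.2, ?_, ?_⟩
      · intro hxy
        apply hyx
        simp only [hf] at hy6
        rw [hxy] at hy6
        have h3 : y.2 ^ 2 = x.2 ^ 2 := by omega
        have h4 : y.2 = x.2 := Nat.pow_left_injective (n := 2) (by norm_num) h3
        exact Prod.ext hxy.symm h4
      · rw [mem_Ioc]
        refine ⟨hy3, hy4.trans (hb.trans ?_)⟩
        rw [hN]
        nlinarith
      · exact hy6.symm
    · intro m' hm'
      have hm1 := (hmemT _ _).1 hm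
      have hm2 := (hmemT _ _).1 hm'
      refine card_image_le.trans ?_
      rcases lt_trichotomy m m' with h | h | h
      · obtain ⟨e, rfl⟩ := Nat.exists_eq_add_of_lt h
        refine le_trans (card_le_card ?_) (HIT_snd hCOL (c := 2 ^ a * (e + 1)) (V := V) (W := N)
          (N := N) (by positivity) ?_ hD hVW)
        · intro u hu
          rw [mem_filter] at hu ⊢
          obtain ⟨hu, -, v, hv, hv2⟩ := hu
          refine ⟨hu, v, hv, ?_⟩
          have h3 : 2 ^ a * (m + e + 1) = 2 ^ a * m + 2 ^ a * (e + 1) := by ring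
          omega
        · rw [hN]
          refine Nat.mul_le_mul_left _ ?_
          omega
      · have : ({u ∈ Ioc 0 V | m ≠ m' ∧ ∃ v ∈ Ioc 0 N,
            2 ^ a * m + 3 * u ^ 2 = 2 ^ a * m' + 3 * v ^ 2} : Finset ℕ) = ∅ := by
          rw [filter_eq_empty_iff]
          rintro u - ⟨h1, -⟩
          exact h1 h
        rw [this, card_empty]
        exact Nat.zero_le _
      · obtain ⟨e, rfl⟩ := Nat.exists_eq_add_of_lt h
        refine le_trans (card_le_card ?_) (HIT_fst hCOL (c := 2 ^ a * (e + 1)) (V := V) (W := N)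
          (N := N) (by positivity) ?_ hD hVW)
        · intro u hu
          rw [mem_filter] at hu ⊢
          obtain ⟨hu, -, v, hv, hv2⟩ := hu
          refine ⟨hu, v, hv, ?_⟩
          have h3 : 2 ^ a * (m' + e + 1) = 2 ^ a * m' + 2 ^ a * (e + 1) := by ring
          omega
        · rw [hN]
          refine Nat.mul_le_mul_left _ ?_
          omega
  calc #(TT r Y) * (V / 2) ≤ #G + #B1 + #B2 := hQ1.trans hQ
    _ ≤ #(Gd a r (4 * 2 ^ a * Y)) + #(TT r Y) * (#(TT r (4 * Y)) * D) + #(TT r Y) * D := by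
        gcongr
    _ = #(Gd a r (4 * 2 ^ a * Y)) + D * #(TT r Y) * (#(TT r (4 * Y)) + 1) := by ring

end Pool.Agent.OG
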